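import Pool.Agent.UL4.Stmts

/-!
# Row ONE of squad UL4 (MP_c7c9bf_co): the one variable theorem
-/

set_option autoImplicit false

namespace Pool.Agent.UL4.H81

open MeasureTheory Set Pool.Agent.UL3

/-- **ONE** -/
theorem one (hber : BerStmt) (hpck : PckStmt) (hova : OvaStmt) (hovb : OvbStmt)
    (hovc : OvcStmt) : OneStmt := by
  intro F hc hv h0 hm
  obtain ⟨κ, hκ⟩ : ∃ κ : ℝ, κ = 5 / (4 * Real.sqrt 3) := ⟨_, rfl⟩
  obtain ⟨T, hT⟩ : ∃ T : ℝ, T = ∫ t in (0 : ℝ)..1, F t ^ 4 := ⟨_, rfl⟩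
  rw [← hκ, ← hT]
  have hs3 : (1732 / 1000 : ℝ) ≤ Real.sqrt 3 := by
    apply Real.le_sqrt_of_sq_le
    norm_num
  have hs3p : 0 < Real.sqrt 3 := by linarith
  have hκ0 : 0 < κ := by
    rw [hκ]
    positivity
  have hκ1 : κ ≤ 7218 / 10000 := by
    rw [hκ, div_le_iff₀ (by positivity)]
    linarith
  have hT95 : T ≤ 9 / 5 := by
    have h1 := hber F hc hv h0
    rw [hm, ← hT] at h1
    linarith
  have fin : ∀ x y s : ℝ, x < 1 → 0 < s → s < x → F s < Real.sqrt y →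
      (s + x ≤ 1 → F (s + x) < Real.sqrt y) → F s ^ 2 < y ∧ (s + x ≤ 1 → F (s + x) ^ 2 < y) := by
    intro x y s hx hs hsx h1 h2
    refine ⟨?_, fun h => ?_⟩
    · exact (Real.lt_sqrt (h0 s ⟨hs.le, by linarith⟩)).mp h1
    · exact (Real.lt_sqrt (h0 (s + x) ⟨by linarith, h⟩)).mp (h2 h)
  rcases hpck F (1 / 2) (Real.sqrt (4 / 3)) hc hv le_rfl (by norm_num) with
    ⟨s, hs0, hs1, hs2, hs3'⟩ | ⟨l₁, hl0, hl1, hl2⟩
  · obtain ⟨h1, h2⟩ := fin (1 / 2) (4 / 3) s (by norm_num) hs0 hs1 hs2 hs3'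
    refine ⟨1 / 2, 4 / 3, s, le_rfl, by norm_num, by norm_num, by norm_num, hs0, hs1, ?_, h1, h2⟩
    nlinarith
  · by_cases hκT : κ * T ≤ 25 / 27
    · obtain ⟨s, hs0, hs1, hs2, hs3'⟩ := hova F hc hv h0 hm l₁ hl0 hl1 hl2
      obtain ⟨h1, h2⟩ := fin (18 / 25) (25 / 27) s (by norm_num) hs0 hs1 hs2 hs3'
      exact ⟨18 / 25, 25 / 27, s, by norm_num, by norm_num, by norm_num, by norm_num, hs0, hs1,
        hκT, h1, h2⟩
    · have hκT' := not_le.mp hκT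
      have hT0 : 0 < T := by
        by_contra h
        have h1 := mul_nonpos_of_nonneg_of_nonpos hκ0.le (not_lt.mp h)
        linarith
      have hTb := hovb F hc hv h0 hm l₁ hl0 hl1 hl2
      rw [← hT] at hTb
      rcases hpck F (13 / 20) (Real.sqrt (40 / 39)) hc hv (by norm_num) (by norm_num) with
        ⟨s, hs0, hs1, hs2, hs3'⟩ | ⟨l₂, hl0', hl1', hl2'⟩
      · obtain ⟨h1, h2⟩ := fin (13 / 20) (40 / 39) s (by norm_num) hs0 hs1 hs2 hs3'
        refine ⟨13 / 20, 40 / 39, s, by norm_num, by norm_num, by norm_num, by norm_num, hs0, hs1,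
          ?_, h1, h2⟩
        nlinarith
      · exfalso
        have hTc := hovc F hc hv h0 hm l₁ l₂ hl0 hl1 hl2 hl0' hl1' hl2'
        rw [← hT] at hTc
        nlinarith

end Pool.Agent.UL4.H81
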